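import Pool.Agent.W745.RW.Stm

/-! Project RW (MP_6b977f_mp): RW-2, the two point limits. -/
set_option autoImplicit false
open MeasureTheory Filter Topology Complex
open scoped ContDiff

namespace Pool.Agent.W75.RW.Two

open Pool.Agent.W745.RW

noncomputable section

/-- the complexification of a test function -/
def cx (φ : ℂ → ℝ) (z : ℂ) : ℂ := (φ z : ℂ)

lemma cx_contDiff {φ : ℂ → ℝ} (h : ContDiff ℝ ∞ φ) : ContDiff ℝ ∞ (cx φ) :=
  Complex.ofRealCLM.contDiff.comp h

lemma cx_tsupport {φ : ℂ → ℝ} : tsupport (cx φ) ⊆ tsupport φ := by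
  apply closure_mono
  intro z hz
  simp only [Function.mem_support, cx, ne_eq, ofReal_eq_zero] at hz ⊢
  exact hz

lemma cx_compact {φ : ℂ → ℝ} (h : HasCompactSupport φ) : HasCompactSupport (cx φ) :=
  h.mono' (subset_trans subset_closure cx_tsupport)

/-- product of a continuous function with compact support in `B` and a function continuous on
`B` -/
lemma intble {B : Set ℂ} (hB : IsOpen B) {ψ H : ℂ → ℂ} (hψ : Continuous ψ)
    (hc : HasCompactSupport ψ) (hs : tsupport ψ ⊆ B) (hH : ContinuousOn H B) :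
    Integrable (fun z => ψ z * H z) := by
  have hcont : Continuous (fun z => ψ z * H z) := by
    rw [continuous_iff_continuousAt]
    intro z
    by_cases hz : z ∈ B
    · exact hψ.continuousAt.mul (hH.continuousAt (hB.mem_nhds hz))
    · have hz' : z ∉ tsupport ψ := fun h => hz (hs h)
      have h1 : (fun z => ψ z * H z) =ᶠ[𝓝 z] fun _ => 0 := by
        filter_upwards [notMem_tsupport_iff_eventuallyEq.1 hz'] with w hw
        rw [hw]; simp
      exact (continuousAt_const).congr h1.symm
  exact hcont.integrable_of_hasCompactSupport hc.mul_right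

/-- integration by parts in the direction `v` -/
lemma parts {B : Set ℂ} (hB : IsOpen B) {φ : ℂ → ℝ} (hφ : TF B φ) {G : ℂ → ℂ}
    (hG : ContDiffOn ℝ ∞ G B) (v : ℂ) :
    ∫ z, cx φ z * fderiv ℝ G z v = - ∫ z, fderiv ℝ (cx φ) z v * G z := by
  have hc := cx_contDiff hφ.1
  have hs : tsupport (cx φ) ⊆ B := subset_trans cx_tsupport hφ.2.2
  have hcc := cx_compact hφ.2.1
  have hd : Continuous (fun z => fderiv ℝ (cx φ) z v) :=
    (hc.continuous_fderiv (by simp)).clm_apply continuous_const
  have hdc : HasCompactSupport (fun z => fderiv ℝ (cx φ) z v) :=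
    hcc.fderiv_apply (𝕜 := ℝ) v
  have hds : tsupport (fun z => fderiv ℝ (cx φ) z v) ⊆ B :=
    subset_trans (tsupport_fderiv_apply_subset ℝ v) hs
  have hGc : ContinuousOn (fun z => fderiv ℝ G z v) B :=
    (hG.continuousOn_fderiv_of_isOpen hB (by simp)).clm_apply continuousOn_const
  apply integral_mul_fderiv_eq_neg_fderiv_mul_of_integrable
  · exact intble hB hd hdc hds hG.continuousOn
  · exact intble hB hc.continuous hcc hs hGc
  · exact intble hB hc.continuous hcc hs hG.continuousOn
  · intro x _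
    exact (hc.differentiable (by simp)) x
  · intro x hx
    exact (hG.contDiffAt (hB.mem_nhds (hs hx))).differentiableAt (by simp)

/-- two point moment -/
def I2 (φ : ℂ → ℝ) (h : ℝ) (u : ℂ → ℝ) (a b : ℤ) : ℂ :=
  ∫ z, (φ z : ℂ) * (W h u a z * W h u b z)

/-- the weight `∂x φ - i ∂y φ` -/
def wt (φ : ℂ → ℝ) (z : ℂ) : ℂ := fderiv ℝ (cx φ) z 1 - I * fderiv ℝ (cx φ) z I

lemma sum_eq (hW : SW) {B : Set ℂ} (hB : IsOpen B) {h : ℝ} {u : ℂ → ℝ} (hu : Sol B h u)
    {φ : ℂ → ℝ} (hφ : TF B φ) (a b : ℤ) :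
    I2 φ h u (a + 1) b + I2 φ h u a (b + 1) =
      -(h : ℂ) * ∫ z, wt φ z * (W h u a z * W h u b z) := by
  obtain ⟨w1, w2, w3, w4⟩ := hW B hB h u hu
  have hc := cx_contDiff hφ.1
  have hs : tsupport (cx φ) ⊆ B := subset_trans cx_tsupport hφ.2.2
  have hcc := cx_compact hφ.2.1
  have hd : ∀ v, Continuous (fun z => fderiv ℝ (cx φ) z v) := fun v =>
    (hc.continuous_fderiv (by simp)).clm_apply continuous_const
  have hdc : ∀ v, HasCompactSupport (fun z => fderiv ℝ (cx φ) z v) := fun v =>
    hcc.fderiv_apply (𝕜 := ℝ) v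
  have hds : ∀ v, tsupport (fun z => fderiv ℝ (cx φ) z v) ⊆ B := fun v =>
    subset_trans (tsupport_fderiv_apply_subset ℝ v) hs
  set G : ℂ → ℂ := fun z => W h u a z * W h u b z with hGdef
  have hG : ContDiffOn ℝ ∞ G B := (w1 a).mul (w1 b)
  have hGc : ∀ v, ContinuousOn (fun z => fderiv ℝ G z v) B := fun v =>
    (hG.continuousOn_fderiv_of_isOpen hB (by simp)).clm_apply continuousOn_const
  -- the product rule
  have hprod : ∀ z ∈ B, W h u (a + 1) z * W h u b z + W h u a z * W h u (b + 1) z =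
      (h : ℂ) * (fderiv ℝ G z 1 - I * fderiv ℝ G z I) := by
    intro z hz
    have da : DifferentiableAt ℝ (W h u a) z :=
      ((w1 a).contDiffAt (hB.mem_nhds hz)).differentiableAt (by simp)
    have db : DifferentiableAt ℝ (W h u b) z :=
      ((w1 b).contDiffAt (hB.mem_nhds hz)).differentiableAt (by simp)
    have hf : ∀ v, fderiv ℝ G z v =
        W h u a z * fderiv ℝ (W h u b) z v + W h u b z * fderiv ℝ (W h u a) z v := by
      intro v
      rw [hGdef, fderiv_fun_mul da db]
      simp
    rw [← w2 a z hz, ← w2 b z hz, hf, hf]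
    simp only [Dp, dx, dy]
    ring
  have i1 : Integrable (fun z => cx φ z * (W h u (a + 1) z * W h u b z)) :=
    intble hB hc.continuous hcc hs ((w1 _).continuousOn.mul (w1 _).continuousOn)
  have i2 : Integrable (fun z => cx φ z * (W h u a z * W h u (b + 1) z)) :=
    intble hB hc.continuous hcc hs ((w1 _).continuousOn.mul (w1 _).continuousOn)
  have j1 : Integrable (fun z => cx φ z * fderiv ℝ G z 1) :=
    intble hB hc.continuous hcc hs (hGc 1)
  have j2 : Integrable (fun z => cx φ z * fderiv ℝ G z I) :=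
    intble hB hc.continuous hcc hs (hGc I)
  have k1 : Integrable (fun z => fderiv ℝ (cx φ) z 1 * G z) :=
    intble hB (hd 1) (hdc 1) (hds 1) hG.continuousOn
  have k2 : Integrable (fun z => fderiv ℝ (cx φ) z I * G z) :=
    intble hB (hd I) (hdc I) (hds I) hG.continuousOn
  have e1 : I2 φ h u (a + 1) b + I2 φ h u a (b + 1) =
      (h : ℂ) * ((∫ z, cx φ z * fderiv ℝ G z 1) - I * ∫ z, cx φ z * fderiv ℝ G z I) := by
    have : I2 φ h u (a + 1) b + I2 φ h u a (b + 1) =
        (∫ z, cx φ z * (W h u (a + 1) z * W h u b z)) +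
          ∫ z, cx φ z * (W h u a z * W h u (b + 1) z) := rfl
    rw [this, ← integral_add i1 i2, ← integral_const_mul I, ← integral_sub j1 (j2.const_mul I),
      ← integral_const_mul]
    refine integral_congr_ae (Eventually.of_forall fun z => ?_)
    simp only
    by_cases hz : z ∈ B
    · have := hprod z hz
      linear_combination (cx φ z) * this
    · have h0 : cx φ z = 0 := by
        by_contra hne
        exact hz (hs (subset_tsupport _ hne))
      rw [h0]; simp
  rw [e1, parts hB hφ hG 1, parts hB hφ hG I]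
  have e2 : ∫ z, wt φ z * G z =
      (∫ z, fderiv ℝ (cx φ) z 1 * G z) - I * ∫ z, fderiv ℝ (cx φ) z I * G z := by
    rw [← integral_const_mul I, ← integral_sub k1 (k2.const_mul I)]
    refine integral_congr_ae (Eventually.of_forall fun z => ?_)
    simp only [wt]
    ring
  rw [e2]
  ring

lemma step (hW : SW) {B : Set ℂ} (hB : IsOpen B) {h : ℕ → ℝ} {u : ℕ → ℂ → ℝ}
    (hS : Sys B h u) (hb : Bd B h u) {φ : ℂ → ℝ} (hφ : TF B φ) (a b : ℤ) :
    Tendsto (fun n => I2 φ (h n) (u n) (a + 1) b + I2 φ (h n) (u n) a (b + 1)) atTop (𝓝 0) := by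
  have hc := cx_contDiff hφ.1
  have hcc := cx_compact hφ.2.1
  set K := tsupport φ with hK
  have hKc : IsCompact K := hφ.2.1
  obtain ⟨Ca, hCa⟩ := hb a K hKc hφ.2.2
  obtain ⟨Cb, hCb⟩ := hb b K hKc hφ.2.2
  have hwc : Continuous (wt φ) := by
    unfold wt
    exact ((hc.continuous_fderiv (by simp)).clm_apply continuous_const).sub
      (continuous_const.mul ((hc.continuous_fderiv (by simp)).clm_apply continuous_const))
  have hws : ∀ z, z ∉ K → wt φ z = 0 := by
    intro z hz
    have hz' : z ∉ tsupport (cx φ) := fun h => hz (cx_tsupport h)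
    have : fderiv ℝ (cx φ) z = 0 := by
      have h1 := notMem_tsupport_iff_eventuallyEq.1 hz'
      rw [h1.fderiv_eq]
      simp
    simp [wt, this]
  obtain ⟨C', hC'⟩ := hKc.exists_bound_of_continuousOn hwc.continuousOn
  set C := max C' 0 with hC
  have hCpos : 0 ≤ C := le_max_right _ _
  have hwb : ∀ z ∈ K, ‖wt φ z‖ ≤ C := fun z hz => (hC' z hz).trans (le_max_left _ _)
  have hvol : volume K ≠ ⊤ := hKc.measure_lt_top.ne
  set V : ℝ := (volume K).toReal with hV
  have hbound : ∀ᶠ n in atTop,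
      ‖I2 φ (h n) (u n) (a + 1) b + I2 φ (h n) (u n) a (b + 1)‖ ≤ h n * (C * (V + Ca + Cb)) := by
    filter_upwards [hCa, hCb] with n ha hb'
    have hu := hS.sol n
    obtain ⟨w1, -, -, -⟩ := hW B hB (h n) (u n) hu
    rw [sum_eq hW hB hu hφ a b, norm_mul]
    have h1 : ‖-(h n : ℂ)‖ = h n := by
      rw [norm_neg, norm_real, Real.norm_of_nonneg hu.hpos.le]
    rw [h1]
    refine mul_le_mul_of_nonneg_left ?_ hu.hpos.le
    have ia : IntegrableOn (fun z => ‖W (h n) (u n) a z‖ ^ 4) K :=
      ((((w1 a).continuousOn.mono hφ.2.2).norm).pow 4).integrableOn_compact hKc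
    have ib : IntegrableOn (fun z => ‖W (h n) (u n) b z‖ ^ 4) K :=
      ((((w1 b).continuousOn.mono hφ.2.2).norm).pow 4).integrableOn_compact hKc
    have i1 : IntegrableOn (fun _ : ℂ => (1 : ℝ)) K := by
      rw [integrableOn_const_iff]
      right
      exact hKc.measure_lt_top
    have hint : IntegrableOn (fun z => C * (1 + ‖W (h n) (u n) a z‖ ^ 4 +
        ‖W (h n) (u n) b z‖ ^ 4)) K := ((i1.add ia).add ib).const_mul C
    have hle : ‖∫ z, wt φ z * (W (h n) (u n) a z * W (h n) (u n) b z)‖ ≤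
        ∫ z, K.indicator (fun z => C * (1 + ‖W (h n) (u n) a z‖ ^ 4 +
        ‖W (h n) (u n) b z‖ ^ 4)) z := by
      refine norm_integral_le_of_norm_le ?_ ?_
      · rwa [integrable_indicator_iff hKc.measurableSet]
      · refine Eventually.of_forall fun z => ?_
        by_cases hz : z ∈ K
        · rw [Set.indicator_of_mem hz, norm_mul, norm_mul]
          refine mul_le_mul (hwb z hz) ?_ (by positivity) hCpos
          nlinarith [sq_nonneg (‖W (h n) (u n) a z‖ - ‖W (h n) (u n) b z‖),
            sq_nonneg (‖W (h n) (u n) a z‖ ^ 2 - 1), sq_nonneg (‖W (h n) (u n) b z‖ ^ 2 - 1),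
            sq_nonneg (‖W (h n) (u n) a z‖ ^ 2), sq_nonneg (‖W (h n) (u n) b z‖ ^ 2)]
        · rw [Set.indicator_of_notMem hz, hws z hz]
          simp
    refine hle.trans ?_
    rw [integral_indicator hKc.measurableSet, integral_const_mul]
    refine mul_le_mul_of_nonneg_left ?_ hCpos
    have i12 : IntegrableOn (fun z => 1 + ‖W (h n) (u n) a z‖ ^ 4) K := i1.add ia
    rw [integral_add i12 ib, integral_add i1 ia]
    have : ∫ z in K, (1 : ℝ) = V := by
      simp [hV, Measure.real]
    rw [this]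
    linarith
  have hlim : Tendsto (fun n => h n * (C * (V + Ca + Cb))) atTop (𝓝 0) := by
    have := hS.hlim.mul_const (C * (V + Ca + Cb))
    rwa [zero_mul] at this
  exact squeeze_zero_norm' hbound hlim

lemma CC_step (a b : ℤ) : CC (a + 1) b + CC a (b + 1) = 0 := by
  unfold CC
  by_cases h : a + 1 + b = 0
  · have h' : a + (b + 1) = 0 := by omega
    rw [if_pos h, if_pos h']
    rcases le_or_gt 0 a with ha | ha
    · have : (a + 1).natAbs = a.natAbs + 1 := by omega
      rw [this, pow_succ]; ring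
    · have : a.natAbs = (a + 1).natAbs + 1 := by omega
      rw [this, pow_succ]; ring
  · have h' : ¬ (a + (b + 1) = 0) := by omega
    rw [if_neg h, if_neg h']; simp

lemma base (hW : SW) {B : Set ℂ} (hB : IsOpen B) {h : ℕ → ℝ} {u : ℕ → ℂ → ℝ}
    (hS : Sys B h u) {φ : ℂ → ℝ} (hφ : TF B φ) (b : ℤ) :
    Tendsto (fun n => I2 φ (h n) (u n) 0 b) atTop (𝓝 (CC 0 b * (∫ z, φ z : ℝ))) := by
  have hnat : ∀ k : ℕ, Tendsto (fun n => I2 φ (h n) (u n) 0 k) atTop
      (𝓝 (CC 0 k * (∫ z, φ z : ℝ))) := by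
    intro k
    have := hS.qe φ hφ k
    have h1 : (if k = 0 then ((∫ z, φ z : ℝ) : ℂ) else 0) = CC 0 k * (∫ z, φ z : ℝ) := by
      unfold CC
      by_cases hk : k = 0
      · subst hk; simp
      · have : ¬ ((0 : ℤ) + (k : ℤ) = 0) := by omega
        rw [if_neg hk, if_neg this]; simp
    rw [h1] at this
    exact this
  rcases Int.eq_nat_or_neg b with ⟨k, rfl | rfl⟩
  · exact hnat k
  · by_cases hk : k = 0
    · subst hk
      simpa using hnat 0
    have h0 : CC 0 (-(k : ℤ)) = 0 := by
      unfold CC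
      have : ¬ ((0 : ℤ) + -(k : ℤ) = 0) := by omega
      rw [if_neg this]
    have h0' : CC 0 (k : ℤ) = 0 := by
      unfold CC
      have : ¬ ((0 : ℤ) + (k : ℤ) = 0) := by omega
      rw [if_neg this]
    have hk' := hnat k
    rw [h0', zero_mul] at hk'
    rw [h0, zero_mul]
    have key : ∀ n, I2 φ (h n) (u n) 0 (-(k : ℤ)) =
        (-1) ^ k * (starRingEnd ℂ) (I2 φ (h n) (u n) 0 k) := by
      intro n
      obtain ⟨w1, w2, w3, w4⟩ := hW B hB (h n) (u n) (hS.sol n)
      unfold I2
      rw [← integral_conj, ← integral_const_mul]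
      refine integral_congr_ae (Eventually.of_forall fun z => ?_)
      simp only
      by_cases hz : z ∈ B
      · have h4 := w4 k z hz
        have h5 := w4 0 z hz
        rw [map_mul, map_mul, conj_ofReal, h4, h5]
        simp only [Int.natAbs_natCast, Int.natAbs_zero, pow_zero, one_mul, neg_zero]
        have h6 : ((-1 : ℂ) ^ k) * (-1) ^ k = 1 := by
          rw [← mul_pow]; simp
        linear_combination (-(φ z : ℂ) * W (h n) (u n) 0 z * W (h n) (u n) (-(k : ℤ)) z) * h6
      · have h0 : φ z = 0 := by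
          by_contra hne
          exact hz (hφ.2.2 (subset_tsupport _ hne))
        rw [h0]; simp
    have h7 : Tendsto (fun n => (-1 : ℂ) ^ k * (starRingEnd ℂ) (I2 φ (h n) (u n) 0 k)) atTop
        (𝓝 ((-1 : ℂ) ^ k * (starRingEnd ℂ) 0)) :=
      ((Complex.continuous_conj.tendsto _).comp hk').const_mul _
    rw [map_zero, mul_zero] at h7
    exact h7.congr fun n => (key n).symm

theorem two (hW : SW) : S2 := by
  intro B hB h u hS hb φ hφ a b
  have main : ∀ a : ℤ, ∀ b : ℤ,
      Tendsto (fun n => I2 φ (h n) (u n) a b) atTop (𝓝 (CC a b * (∫ z, φ z : ℝ))) := by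
    intro a
    induction a using Int.induction_on with
    | zero => exact fun b => base hW hB hS hφ b
    | succ i ih =>
      intro b
      have h1 := step hW hB hS hb hφ i b
      have h2 := h1.sub (ih (b + 1))
      have h3 : (0 : ℂ) - CC i (b + 1) * (∫ z, φ z : ℝ) = CC (i + 1) b * (∫ z, φ z : ℝ) := by
        have := CC_step i b
        linear_combination (-((∫ z, φ z : ℝ) : ℂ)) * this
      rw [h3] at h2
      refine h2.congr fun n => ?_
      ring
    | pred i ih =>
      intro b
      have h1 := step hW hB hS hb hφ (-i - 1) (b - 1)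
      have h2 := h1.sub (ih (b - 1))
      have e1 : (-(i : ℤ) - 1 + 1) = -i := by ring
      have e2 : (b - 1 + 1) = b := by ring
      have h3 : (0 : ℂ) - CC (-i) (b - 1) * (∫ z, φ z : ℝ) = CC (-i - 1) b * (∫ z, φ z : ℝ) := by
        have := CC_step (-i - 1) (b - 1)
        rw [e1, e2] at this
        linear_combination (-((∫ z, φ z : ℝ) : ℂ)) * this
      rw [h3] at h2
      refine h2.congr fun n => ?_
      rw [e1, e2]
      ring
  exact main a b

end

end Pool.Agent.W75.RW.Two
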